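import Mathlib

/-!
# MP_c23e02_co: the `k`-th upper chromatic numbers of the real line and of the integers agree

Given an array `D` of positive reals, choose a `ℚ`-linear functional `φ : ℝ → ℚ` with
`φ (D i j) ≠ 0` for all `i, j`, and a positive integer `N` such that all `N φ (D i j)` are
integers. If `T` colours the integers for the array `|N φ (D i j)|`, then
`x ↦ T ⌊N φ(x)⌋` colours the reals for the array `D`.
-/

set_option autoImplicit false

namespace Pool.Agent.Results.MP_c23e02_co.RealEqInt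

/-- `S ⊆ ℝ` is `D`-colourable: some colouring `T` of the points of `S` with the colours
`0, …, m - 1` has, for every colour `j` and every `i`, no two points `x, y ∈ S` of colour `j` at
distance `|x - y| = D i j`. -/
def DColorable (S : Set ℝ) {k m : ℕ} (D : Fin k → Fin m → ℝ) : Prop :=
  ∃ T : S → Fin m, ∀ (j : Fin m) (i : Fin k),
    ¬ ∃ x y : S, |(x : ℝ) - (y : ℝ)| = D i j ∧ T x = j ∧ T y = j

/-- `S` is `D`-colourable for every `k × m` array `D` of positive reals. -/
def AllColorable (k : ℕ) (S : Set ℝ) (m : ℕ) : Prop :=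
  ∀ D : Fin k → Fin m → ℝ, (∀ i j, 0 < D i j) → DColorable S D

/-- The `k`-th upper chromatic number `χ_k(S)`: the least positive integer `m` such that `S` is
`D`-colourable for every `k × m` array `D` of positive reals, and `∞` if there is none. -/
noncomputable def upperChi (k : ℕ) (S : Set ℝ) : ℕ∞ :=
  sInf {x : ℕ∞ | ∃ m : ℕ, x = (m : ℕ∞) ∧ 1 ≤ m ∧ AllColorable k S m}

/-- finitely many rationals have a common denominator -/
theorem exists_denom {ι : Type} [Fintype ι] (q : ι → ℚ) :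
    ∃ N : ℕ, 0 < N ∧ ∀ i, ∃ z : ℤ, (N : ℚ) * q i = z := by
  classical
  refine ⟨∏ i, (q i).den, Finset.prod_pos fun i _ => (q i).den_pos, fun i => ?_⟩
  refine ⟨(∏ j ∈ Finset.univ.erase i, ((q j).den : ℤ)) * (q i).num, ?_⟩
  have h1 : (∏ j, (q j).den : ℕ) = (∏ j ∈ Finset.univ.erase i, (q j).den) * (q i).den :=
    (Finset.prod_erase_mul _ _ (Finset.mem_univ i)).symm
  rw [h1]
  push_cast
  rw [mul_assoc]
  congr 1
  rw [mul_comm]
  exact Rat.mul_den_eq_num (q i)

/-- Colourability of the integers for all arrays implies the same for the reals. -/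
theorem all_real_of_all_int {k m : ℕ}
    (h : AllColorable k (Set.range ((↑) : ℤ → ℝ)) m) : AllColorable k Set.univ m := by
  classical
  intro D hD
  obtain ⟨φ, hφ⟩ := Module.exists_dual_forall_apply_ne_zero (K := ℚ) (M := ℝ)
    (fun p : Fin k × Fin m => D p.1 p.2) (fun p => (hD p.1 p.2).ne')
  obtain ⟨N, hN, hz⟩ := exists_denom (fun p : Fin k × Fin m => φ (D p.1 p.2))
  choose z hz using hz
  have hz0 : ∀ p, z p ≠ 0 := by
    intro p hp
    have h1 := hz p
    rw [hp, Int.cast_zero, mul_eq_zero] at h1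
    rcases h1 with h1 | h1
    · have : (0 : ℚ) < N := by exact_mod_cast hN
      exact this.ne' h1
    · exact hφ p h1
  obtain ⟨T, hT⟩ := h (fun i j => |(z (i, j) : ℝ)|) (fun i j => by
    have : (z (i, j) : ℝ) ≠ 0 := by exact_mod_cast hz0 (i, j)
    exact abs_pos.2 this)
  -- the integer attached to a real
  let g : ℝ → ℤ := fun x => ⌊(N : ℚ) * φ x⌋
  refine ⟨fun x => T ⟨((g x : ℤ) : ℝ), ⟨g x, rfl⟩⟩, ?_⟩
  rintro j i ⟨⟨x, hx⟩, ⟨y, hy⟩, hxy, hTx, hTy⟩
  apply hT j i
  refine ⟨_, _, ?_, hTx, hTy⟩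
  have key : g x - g y = z (i, j) ∨ g x - g y = - z (i, j) := by
    have hsub : (N : ℚ) * φ x - N * φ y = (N : ℚ) * φ (x - y) := by
      rw [map_sub]; ring
    rcases (abs_eq (hD i j).le).1 hxy with h1 | h1
    · left
      have h2 : (N : ℚ) * φ x = N * φ y + ((z (i, j) : ℤ) : ℚ) := by
        rw [← hz (i, j)]
        have : φ (x - y) = φ (D i j) := by rw [h1]
        rw [this] at hsub
        linarith
      show ⌊(N : ℚ) * φ x⌋ - ⌊(N : ℚ) * φ y⌋ = _
      rw [h2, Int.floor_add_intCast]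
      ring
    · right
      have h2 : (N : ℚ) * φ y = N * φ x + ((z (i, j) : ℤ) : ℚ) := by
        rw [← hz (i, j)]
        have : φ (x - y) = - φ (D i j) := by
          have : x - y = - D i j := h1
          rw [this, map_neg]
        rw [this] at hsub
        linarith
      show ⌊(N : ℚ) * φ x⌋ - ⌊(N : ℚ) * φ y⌋ = _
      rw [h2, Int.floor_add_intCast]
      ring
  have hcast : ((g x : ℤ) : ℝ) - ((g y : ℤ) : ℝ) = ((g x - g y : ℤ) : ℝ) := by push_cast; ring
  show |((g x : ℤ) : ℝ) - ((g y : ℤ) : ℝ)| = |(z (i, j) : ℝ)|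
  rw [hcast]
  rcases key with h1 | h1 <;> rw [h1]
  push_cast
  exact abs_neg _

theorem all_int_of_all_real {k m : ℕ} {S : Set ℝ} (h : AllColorable k Set.univ m) :
    AllColorable k S m := by
  intro D hD
  obtain ⟨T, hT⟩ := h D hD
  refine ⟨fun x => T ⟨x, trivial⟩, ?_⟩
  rintro j i ⟨x, y, hxy, hTx, hTy⟩
  exact hT j i ⟨⟨x, trivial⟩, ⟨y, trivial⟩, hxy, hTx, hTy⟩

/-- **Q1.** `χ_k(ℝ) = χ_k(ℤ)` for every `k ≥ 1`. -/
theorem result (k : ℕ) (_hk : 1 ≤ k) :
    upperChi k (Set.univ : Set ℝ) = upperChi k (Set.range ((↑) : ℤ → ℝ)) := by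
  have h : ∀ m, AllColorable k (Set.univ : Set ℝ) m ↔
      AllColorable k (Set.range ((↑) : ℤ → ℝ)) m := fun m =>
    ⟨fun h => all_int_of_all_real h, fun h => all_real_of_all_int h⟩
  unfold upperChi
  simp only [h]

end Pool.Agent.Results.MP_c23e02_co.RealEqInt
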